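import Pool.Agent.NH44.VR.Defs

/-!
# Cones and links of simplicial chains
-/

set_option autoImplicit false

namespace Pool.Agent.NH44.VR

open Finsupp

variable {X : Type} [LinearOrder X]

theorem sgn_mul_self (x : X) (s : Finset X) : sgn x s * sgn x s = 1 := by
  unfold sgn
  rw [← mul_pow]
  norm_num

theorem sgn_insert_lt {x y : X} {s : Finset X} (hx : x ∉ s) (h : x < y) :
    sgn y (insert x s) = - sgn y s := by
  unfold sgn
  rw [Finset.filter_insert, if_pos h, Finset.card_insert_of_notMem (by simp [hx]), pow_succ]
  ring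

theorem sgn_insert_not {x y : X} {s : Finset X} (h : ¬ x < y) :
    sgn y (insert x s) = sgn y s := by
  unfold sgn
  rw [Finset.filter_insert, if_neg h]

theorem sgn_erase_lt {x y : X} {s : Finset X} (hx : x ∈ s) (h : x < y) :
    sgn y (s.erase x) = - sgn y s := by
  have h1 := sgn_insert_lt (s := s.erase x) (Finset.notMem_erase x s) h
  rw [Finset.insert_erase hx] at h1
  rw [h1, neg_neg]

theorem sgn_erase_not {x y : X} {s : Finset X} (h : ¬ x < y) :
    sgn y (s.erase x) = sgn y s := by
  by_cases hx : x ∈ s
  · have h1 := sgn_insert_not (s := s.erase x) h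
    rw [Finset.insert_erase hx] at h1
    exact h1.symm
  · rw [Finset.erase_eq_of_notMem hx]

/-- The cone with the apex `x` over a simplex. -/
noncomputable def coneS (x : X) (s : Finset X) : Finset X →₀ ℤ :=
  if x ∈ s then 0 else single (insert x s) (sgn x s)

/-- The cone operator. -/
noncomputable def cone (x : X) : (Finset X →₀ ℤ) →ₗ[ℤ] (Finset X →₀ ℤ) :=
  linearCombination ℤ (coneS x)

/-- The link of a vertex in a simplex. -/
noncomputable def lkS (x : X) (s : Finset X) : Finset X →₀ ℤ :=
  if x ∈ s then single (s.erase x) (sgn x s) else 0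

/-- The link operator. -/
noncomputable def lk (x : X) : (Finset X →₀ ℤ) →ₗ[ℤ] (Finset X →₀ ℤ) :=
  linearCombination ℤ (lkS x)

/-- The part of a chain which avoids `x`. -/
noncomputable def resS (x : X) (s : Finset X) : Finset X →₀ ℤ :=
  if x ∈ s then 0 else single s 1

/-- The operator which takes the part of a chain avoiding `x`. -/
noncomputable def res (x : X) : (Finset X →₀ ℤ) →ₗ[ℤ] (Finset X →₀ ℤ) :=
  linearCombination ℤ (resS x)

theorem bd_single (s : Finset X) (a : ℤ) : bd (single s a) = a • bdS s := by
  simp [bd, linearCombination_single]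

theorem cone_single (x : X) (s : Finset X) (a : ℤ) : cone x (single s a) = a • coneS x s := by
  simp [cone, linearCombination_single]

theorem lk_single (x : X) (s : Finset X) (a : ℤ) : lk x (single s a) = a • lkS x s := by
  simp [lk, linearCombination_single]

theorem res_single (x : X) (s : Finset X) (a : ℤ) : res x (single s a) = a • resS x s := by
  simp [res, linearCombination_single]

theorem sign_rel {x y : X} {s : Finset X} (hxy : x ≠ y) (hx : x ∉ s) (hy : y ∈ s) :
    sgn x s * sgn y (insert x s) + sgn y s * sgn x (s.erase y) = 0 := by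
  rcases lt_or_gt_of_ne hxy with h | h
  · rw [sgn_insert_lt hx h, sgn_erase_not (not_lt.2 h.le)]
    ring
  · rw [sgn_insert_not (not_lt.2 h.le), sgn_erase_lt hy h]
    ring

theorem bd_coneS (x : X) (s : Finset X) : bd (coneS x s) + cone x (bdS s) = single s 1 := by
  by_cases hx : x ∈ s
  · rw [coneS, if_pos hx, map_zero, zero_add, bdS, map_sum]
    rw [Finset.sum_eq_single x]
    · rw [cone_single, coneS, if_neg (Finset.notMem_erase x s), Finset.insert_erase hx,
        smul_single, smul_eq_mul, sgn_erase_not (lt_irrefl x), sgn_mul_self]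
    · intro y _ hyx
      rw [cone_single, coneS, if_pos (Finset.mem_erase.2 ⟨Ne.symm hyx, hx⟩), smul_zero]
    · intro h
      exact absurd hx h
  · rw [coneS, if_neg hx, bd_single, bdS, Finset.sum_insert hx, Finset.erase_insert hx,
      sgn_insert_not (lt_irrefl x), smul_add, smul_single, smul_eq_mul, sgn_mul_self, bdS, map_sum,
      add_assoc, Finset.smul_sum, ← Finset.sum_add_distrib]
    rw [Finset.sum_eq_zero, add_zero]
    intro y hy
    have hxy : x ≠ y := by rintro rfl; exact hx hy
    rw [cone_single, coneS, if_neg (fun h => hx (Finset.mem_of_mem_erase h)), smul_single,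
      smul_single, smul_eq_mul, smul_eq_mul, Finset.erase_insert_of_ne hxy, ← single_add,
      sign_rel hxy hx hy, single_zero]

theorem bd_cone (x : X) (c : Finset X →₀ ℤ) : bd (cone x c) + cone x (bd c) = c := by
  induction c using Finsupp.induction_linear with
  | zero => simp
  | add f g hf hg =>
    rw [map_add, map_add, map_add, map_add]
    calc _ = (bd (cone x f) + cone x (bd f)) + (bd (cone x g) + cone x (bd g)) := by abel
      _ = _ := by rw [hf, hg]
  | single s a =>
    rw [cone_single, bd_single, map_smul, map_smul, ← smul_add, bd_coneS, smul_single, smul_eq_mul,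
      mul_one]

theorem sign_rel2 {x y : X} {s : Finset X} (hxy : x ≠ y) (hx : x ∈ s) (hy : y ∈ s) :
    sgn y s * sgn x (s.erase y) = - (sgn x s * sgn y (s.erase x)) := by
  rcases lt_or_gt_of_ne hxy with h | h
  · rw [sgn_erase_not (not_lt.2 h.le), sgn_erase_lt hx h]
    ring
  · rw [sgn_erase_lt hy h, sgn_erase_not (not_lt.2 h.le)]
    ring

theorem lk_bdS (x : X) (s : Finset X) : lk x (bdS s) + bd (lkS x s) = 0 := by
  by_cases hx : x ∈ s
  · rw [lkS, if_pos hx, bd_single, bdS, map_sum, ← Finset.insert_erase hx,
      Finset.sum_insert (Finset.notMem_erase x s), Finset.insert_erase hx, lk_single, lkS,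
      if_neg (Finset.notMem_erase x s), smul_zero, zero_add, bdS, Finset.smul_sum,
      ← Finset.sum_add_distrib]
    refine Finset.sum_eq_zero fun y hy => ?_
    have hyx : y ≠ x := Finset.ne_of_mem_erase hy
    have hys : y ∈ s := Finset.mem_of_mem_erase hy
    rw [lk_single, lkS, if_pos (Finset.mem_erase.2 ⟨hyx.symm, hx⟩), smul_single, smul_single,
      smul_eq_mul, smul_eq_mul, Finset.erase_right_comm, ← single_add,
      sign_rel2 hyx.symm hx hys, neg_add_cancel, single_zero]
  · rw [lkS, if_neg hx, map_zero, add_zero, bdS, map_sum]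
    refine Finset.sum_eq_zero fun y _ => ?_
    rw [lk_single, lkS, if_neg (fun h => hx (Finset.mem_of_mem_erase h)), smul_zero]

theorem lk_bd (x : X) (c : Finset X →₀ ℤ) : lk x (bd c) + bd (lk x c) = 0 := by
  induction c using Finsupp.induction_linear with
  | zero => simp
  | add f g hf hg =>
    rw [map_add, map_add, map_add, map_add]
    calc _ = (lk x (bd f) + bd (lk x f)) + (lk x (bd g) + bd (lk x g)) := by abel
      _ = _ := by rw [hf, hg, add_zero]
  | single s a =>
    rw [bd_single, lk_single, map_smul, map_smul, ← smul_add, lk_bdS, smul_zero]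

theorem res_add (x : X) (c : Finset X →₀ ℤ) : res x c + cone x (lk x c) = c := by
  induction c using Finsupp.induction_linear with
  | zero => simp
  | add f g hf hg =>
    rw [map_add, map_add, map_add]
    calc _ = (res x f + cone x (lk x f)) + (res x g + cone x (lk x g)) := by abel
      _ = _ := by rw [hf, hg]
  | single s a =>
    rw [res_single, lk_single, map_smul, ← smul_add, resS, lkS]
    by_cases hx : x ∈ s
    · rw [if_pos hx, if_pos hx, zero_add, cone_single, coneS, if_neg (Finset.notMem_erase x s),
        Finset.insert_erase hx, smul_single, smul_single, smul_eq_mul, smul_eq_mul,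
        sgn_erase_not (lt_irrefl x), sgn_mul_self, mul_one]
    · rw [if_neg hx, if_neg hx, map_zero, add_zero, smul_single, smul_eq_mul, mul_one]

theorem map_supp {f : Finset X → (Finset X →₀ ℤ)} {P Q : Set (Finset X)}
    (h : ∀ s ∈ P, f s ∈ supported ℤ ℤ Q) {c : Finset X →₀ ℤ} (hc : c ∈ supported ℤ ℤ P) :
    linearCombination ℤ f c ∈ supported ℤ ℤ Q := by
  rw [linearCombination_apply, Finsupp.sum]
  exact Submodule.sum_mem _ fun s hs => Submodule.smul_mem _ _ (h s (hc hs))

theorem single_supp {Q : Set (Finset X)} {s : Finset X} (h : s ∈ Q) (a : ℤ) :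
    single s a ∈ supported ℤ ℤ Q := single_mem_supported ℤ a h

end Pool.Agent.NH44.VR
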