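import Pool.Agent.NH44.VR.Chain

/-!
# Cross-polytopes with a maximal facet are not boundaries
-/

set_option autoImplicit false

namespace Pool.Agent.NH44.VR

open Finsupp

variable {X : Type} [LinearOrder X]

/-- The pairs `p` and `q` are joined: all the points are distinct and compatible. -/
def Joined (R : X → X → Prop) (p q : X × X) : Prop :=
  (R p.1 q.1 ∧ R p.1 q.2 ∧ R p.2 q.1 ∧ R p.2 q.2) ∧
    (p.1 ≠ q.1 ∧ p.1 ≠ q.2 ∧ p.2 ≠ q.1 ∧ p.2 ≠ q.2)

/-- The fundamental cycle of the cross-polytope with the pairs `L`. -/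
noncomputable def zc : List (X × X) → (Finset X →₀ ℤ)
  | [] => single ∅ 1
  | p :: L => cone p.1 (zc L) - cone p.2 (zc L)

theorem bd_zc : ∀ L : List (X × X), bd (zc L) = 0
  | [] => by simp [zc, bd_single, bdS]
  | p :: L => by
    have h := bd_zc L
    have h1 := bd_cone p.1 (zc L)
    have h2 := bd_cone p.2 (zc L)
    rw [h, map_zero, add_zero] at h1 h2
    rw [zc, map_sub, h1, h2, sub_self]

/-- The simplices of the cross-polytope. -/
def CS (R : X → X → Prop) (L : List (X × X)) : Set (Finset X) :=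
  {s | s.card = L.length ∧ (∀ x ∈ s, ∃ p ∈ L, x = p.1 ∨ x = p.2) ∧ ∀ x ∈ s, ∀ y ∈ s, R x y}

theorem cone_CS {R : X → X → Prop} (hr : ∀ x, R x x) (hs : ∀ x y, R x y → R y x) {p : X × X}
    {L : List (X × X)} (h : ∀ q ∈ L, Joined R p q) {x : X} (hx : x = p.1 ∨ x = p.2)
    {c : Finset X →₀ ℤ} (hc : c ∈ supported ℤ ℤ (CS R L)) :
    cone x c ∈ supported ℤ ℤ (CS R (p :: L)) := by
  refine map_supp (fun s hs' => ?_) hc
  have hR : ∀ y ∈ s, R x y ∧ x ≠ y := by
    intro y hy
    obtain ⟨q, hq, hyq⟩ := hs'.2.1 y hy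
    obtain ⟨⟨a1, a2, a3, a4⟩, b1, b2, b3, b4⟩ := h q hq
    rcases hx with rfl | rfl <;> rcases hyq with rfl | rfl
    · exact ⟨a1, b1⟩
    · exact ⟨a2, b2⟩
    · exact ⟨a3, b3⟩
    · exact ⟨a4, b4⟩
  have hxs : x ∉ s := fun hcon => (hR x hcon).2 rfl
  unfold coneS
  rw [if_neg hxs]
  refine single_supp (show insert x s ∈ CS R (p :: L) from ?_) _
  refine ⟨?_, ?_, ?_⟩
  · rw [Finset.card_insert_of_notMem hxs, hs'.1, List.length_cons]
  · intro y hy
    rcases Finset.mem_insert.1 hy with h3 | h3
    · exact ⟨p, List.mem_cons_self, h3 ▸ hx⟩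
    · obtain ⟨q, hq, hyq⟩ := hs'.2.1 y h3
      exact ⟨q, List.mem_cons_of_mem _ hq, hyq⟩
  · intro y hy z hz
    rcases Finset.mem_insert.1 hy with h2 | h2
    · rcases Finset.mem_insert.1 hz with h3 | h3
      · rw [h2, h3]
        exact hr _
      · rw [h2]
        exact (hR z h3).1
    · rcases Finset.mem_insert.1 hz with h3 | h3
      · rw [h3]
        exact hs _ _ (hR y h2).1
      · exact hs'.2.2 y h2 z h3

theorem zc_supp {R : X → X → Prop} (hr : ∀ x, R x x) (hs : ∀ x y, R x y → R y x) :
    ∀ L : List (X × X), L.Pairwise (Joined R) → zc L ∈ supported ℤ ℤ (CS R L)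
  | [], _ => by
    refine single_supp (show ∅ ∈ CS R [] from ?_) _
    exact ⟨rfl, by simp, by simp⟩
  | p :: L, h => by
    have h1 := List.pairwise_cons.1 h
    have h2 := zc_supp hr hs L h1.2
    exact Submodule.sub_mem _ (cone_CS hr hs h1.1 (Or.inl rfl) h2)
      (cone_CS hr hs h1.1 (Or.inr rfl) h2)

theorem cone_apply_insert {x : X} {t : Finset X} (hx : x ∉ t) (c : Finset X →₀ ℤ) :
    cone x c (insert x t) = sgn x t * c t := by
  induction c using Finsupp.induction_linear with
  | zero => simp
  | add f g hf hg => rw [map_add, Finsupp.add_apply, Finsupp.add_apply, hf, hg, mul_add]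
  | single s a =>
    rw [cone_single, coneS]
    by_cases hxs : x ∈ s
    · rw [if_pos hxs, smul_zero, Finsupp.zero_apply, Finsupp.single_apply, if_neg, mul_zero]
      rintro rfl
      exact hx hxs
    · rw [if_neg hxs, Finsupp.smul_apply, Finsupp.single_apply, Finsupp.single_apply]
      by_cases hst : s = t
      · subst hst
        rw [if_pos rfl, if_pos rfl, smul_eq_mul, mul_comm]
      · rw [if_neg, if_neg hst, smul_zero, mul_zero]
        intro hcon
        apply hst
        rw [← Finset.erase_insert hxs, hcon, Finset.erase_insert hx]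

theorem cone_apply_not {x : X} {t : Finset X} (hx : x ∉ t) (c : Finset X →₀ ℤ) :
    cone x c t = 0 := by
  induction c using Finsupp.induction_linear with
  | zero => simp
  | add f g hf hg => rw [map_add, Finsupp.add_apply, hf, hg, add_zero]
  | single s a =>
    rw [cone_single, coneS]
    by_cases hxs : x ∈ s
    · rw [if_pos hxs, smul_zero, Finsupp.zero_apply]
    · rw [if_neg hxs, Finsupp.smul_apply, Finsupp.single_apply, if_neg, smul_zero]
      rintro rfl
      exact hx (Finset.mem_insert_self _ _)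

/-- The facet of the first points of the pairs. -/
def facet (L : List (X × X)) : Finset X := (L.map Prod.fst).toFinset

theorem mem_facet {L : List (X × X)} {x : X} : x ∈ facet L ↔ ∃ p ∈ L, p.1 = x := by
  unfold facet
  rw [List.mem_toFinset, List.mem_map]

theorem zc_facet {R : X → X → Prop} : ∀ L : List (X × X), L.Pairwise (Joined R) →
    (∀ p ∈ L, p.1 ≠ p.2) → zc L (facet L) ≠ 0
  | [], _, _ => by simp [zc, facet]
  | p :: L, h, hne => by
    have h1 := List.pairwise_cons.1 h
    have h2 := zc_facet L h1.2 (fun q hq => hne q (List.mem_cons_of_mem _ hq))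
    have e1 : facet (p :: L) = insert p.1 (facet L) := by
      unfold facet
      rw [List.map_cons, List.toFinset_cons]
    have n1 : p.1 ∉ facet L := by
      intro hcon
      unfold facet at hcon
      rw [List.mem_toFinset, List.mem_map] at hcon
      obtain ⟨q, hq, hq2⟩ := hcon
      exact (h1.1 q hq).2.1 hq2.symm
    have n2 : p.2 ∉ insert p.1 (facet L) := by
      intro hcon
      rcases Finset.mem_insert.1 hcon with h3 | h3
      · exact hne p List.mem_cons_self h3.symm
      · unfold facet at h3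
        rw [List.mem_toFinset, List.mem_map] at h3
        obtain ⟨q, hq, hq2⟩ := h3
        exact (h1.1 q hq).2.2.2.1 hq2.symm
    rw [e1, zc, Finsupp.sub_apply, cone_apply_insert n1, cone_apply_not n2, sub_zero]
    refine mul_ne_zero ?_ h2
    intro h0
    have := sgn_mul_self p.1 (facet L)
    rw [h0] at this
    simp at this

theorem bd_apply_max {R : X → X → Prop} {P : Set (Finset X)}
    (hP : ∀ s ∈ P, ∀ x ∈ s, ∀ y ∈ s, R x y) {t : Finset X}
    (hmax : ∀ z, (∀ a ∈ t, R z a) → z ∈ t) {b : Finset X →₀ ℤ} (hb : b ∈ supported ℤ ℤ P) :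
    bd b t = 0 := by
  have h : bd b ∈ supported ℤ ℤ {s : Finset X | s ≠ t} := by
    refine map_supp (fun s hs' => ?_) hb
    unfold bdS
    refine Submodule.sum_mem _ fun x hx => ?_
    refine single_supp (show s.erase x ∈ {s : Finset X | s ≠ t} from ?_) _
    intro hcon
    have hxt : x ∈ t := hmax x fun a ha => hP s hs' x hx a
      (Finset.mem_of_mem_erase (hcon ▸ ha))
    rw [← hcon] at hxt
    exact Finset.notMem_erase x s hxt
  by_contra hne
  exact (h (Finsupp.mem_support_iff.2 hne)) rfl

end Pool.Agent.NH44.VR
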