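import Pool.Agent.NH44.VR.Defs

/-!
# Points of `ℤ ^ 10` given by binary codes, and their distances
-/

set_option autoImplicit false
set_option maxRecDepth 100000

namespace Pool.Agent.NH44.VR

/-- The `k`-th binary digit of `c` as an integer. -/
def bitZ (c k : ℕ) : ℤ := if c.testBit k then 1 else 0

/-- The point of the cube `{0, 1} ^ n` with the code `c`. -/
def wd (n c : ℕ) : Pt n := toLex fun k => bitZ c k

/-- The point of `ℤ ^ 10` with the first coordinate `t` and the code `c` of the others. -/
def pt (t : ℤ) (c : ℕ) : Pt 10 := toLex (Fin.cons t fun k : Fin 9 => bitZ c k)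

/-- A table of the numbers of binary digits one. -/
def tbl : ℕ := 19255054270729893008491005534149248252256602926781282732690012290033276866808550227997693622604181043369877307314662111123331664736047184874077759948250443227256975055791411108947596559321109802036954624006373818143946017559684403162578529602068048730946422771823999999239149825717005481632390412975320206440279958629013623038381969796702446623878923952740084796477918444418310443408990755144638227854376788458924235859745937832180260096754594561627738988715237553750525742696058226208231293151672720457407743312923599856247524705366024968272077418776390695019160354360691986468851967610039890687248939048398439391504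

/-- The number of binary digits one of a number below 512. -/
def pc (x : ℕ) : ℕ := (tbl >>> (4 * x)) &&& 15

/-- The number of binary digits one of a number below 1024. -/
def pcc (x : ℕ) : ℕ := pc (x % 512) + x / 512

/-- The distance of two coded points. -/
def D (s t : ℕ × ℕ) : ℕ := (s.1 - t.1) + (t.1 - s.1) + pc (s.2 ^^^ t.2)

/-- The first points of the 64 pairs of the cross-polytope: first coordinate and code. -/
def sigmaL : List (ℕ × ℕ) := [
  (0, 0), (0, 3), (0, 37), (0, 38), (0, 77), (0, 78), (0, 104), (0, 107), (0, 132), (0, 135),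
  (0, 161), (0, 162), (0, 201), (0, 202), (0, 236), (0, 239), (0, 277), (0, 278), (0, 304),
  (0, 307), (0, 344), (0, 347), (0, 381), (0, 382), (0, 401), (0, 402), (0, 436), (0, 439),
  (0, 476), (0, 479), (0, 505), (0, 506), (2, 25), (2, 26), (2, 60), (2, 63), (2, 84), (2, 87),
  (2, 113), (2, 114), (2, 157), (2, 158), (2, 184), (2, 187), (2, 208), (2, 211), (2, 245),
  (2, 246), (2, 268), (2, 271), (2, 297), (2, 298), (2, 321), (2, 322), (2, 356), (2, 359),
  (2, 392), (2, 395), (2, 429), (2, 430), (2, 453), (2, 454), (2, 480), (2, 483)]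

/-- The 66 words with pairwise distances between 3 and 8: the blocks of the Steiner system
`S(5, 6, 12)` which avoid a point, without the coordinates of this point and of another one. -/
def packL : List ℕ := [
  62, 91, 103, 125, 157, 171, 183, 207, 214, 236, 241, 250, 271, 309, 315, 343, 348, 361, 366,
  370, 403, 414, 422, 429, 440, 453, 458, 473, 483, 500, 543, 557, 563, 590, 597, 619, 630, 632,
  647, 666, 686, 692, 697, 713, 723, 732, 738, 741, 790, 793, 807, 810, 828, 835, 845, 858, 868,
  881, 907, 908, 917, 929, 946, 966, 976, 1000]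

/-- The opposite point. -/
def opp (s : ℕ × ℕ) : ℕ × ℕ := (s.1, 511 ^^^ s.2)

/-- All points of two pairs have distances between 1 and 8. -/
def okPair (s t : ℕ × ℕ) : Bool :=
  Nat.ble 1 (D s t) && Nat.ble (D s t) 8 && Nat.ble 1 (D s (opp t)) && Nat.ble (D s (opp t)) 8 &&
  Nat.ble 1 (D (opp s) t) && Nat.ble (D (opp s) t) 8 &&
  Nat.ble 1 (D (opp s) (opp t)) && Nat.ble (D (opp s) (opp t)) 8

theorem check_pairs : sigmaL.Pairwise (fun s t => okPair s t = true) := by decide +kernel

theorem check_codes : ∀ s ∈ sigmaL, (s.1 = 0 ∨ s.1 = 2) ∧ s.2 < 512 := by decide +kernel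

theorem check_length : sigmaL.length = 64 := by decide +kernel

theorem check_max : ∀ j < 3, ∀ b < 512,
    ((sigmaL.any fun s => Nat.ble 9 (D (j, b) s)) ||
      (sigmaL.contains (j, b) && sigmaL.any fun s => Nat.beq (D (j, b) s) 8)) = true := by
  decide +kernel

theorem check_pc : ∀ x < 512, bitZ x 0 + (bitZ x 1 + (bitZ x 2 + (bitZ x 3 + (bitZ x 4 +
    (bitZ x 5 + (bitZ x 6 + (bitZ x 7 + bitZ x 8))))))) = (pc x : ℤ) := by decide +kernel

theorem check_pcc : ∀ x < 1024, bitZ x 0 + (bitZ x 1 + (bitZ x 2 + (bitZ x 3 + (bitZ x 4 +
    (bitZ x 5 + (bitZ x 6 + (bitZ x 7 + (bitZ x 8 + bitZ x 9)))))))) = (pcc x : ℤ) := by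
  decide +kernel

theorem check_pack : packL.Pairwise
    (fun a b => (Nat.ble 3 (pcc (a ^^^ b)) && Nat.ble (pcc (a ^^^ b)) 8) = true) := by
  decide +kernel

theorem check_pack_lt : ∀ a ∈ packL, a < 1024 := by decide +kernel

theorem check_pack_length : packL.length = 66 := by decide +kernel

end Pool.Agent.NH44.VR
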