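import Mathlib

/-!
# Reduced simplicial homology with integer coefficients, and Vietoris–Rips complexes

Simplicial chains on a linearly ordered vertex set `X` are finitely supported integer valued
functions on the finite subsets of `X`; the linear order orients the simplices in the usual way.
The empty simplex is included, so that the homology is the reduced one.
-/

set_option autoImplicit false

namespace Pool.Agent.NH44.VR

/-- The sign `(-1) ^ k` of the face of `s` opposite to its vertex `x`, where `k` is the number of
the vertices of `s` which are smaller than `x`. -/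
def sgn {X : Type} [LinearOrder X] (x : X) (s : Finset X) : ℤ := (-1) ^ (s.filter (· < x)).card

/-- The boundary of the simplex `s`: the sum of its faces `s \ {x}` with the signs `sgn x s`. -/
noncomputable def bdS {X : Type} [LinearOrder X] (s : Finset X) : Finset X →₀ ℤ :=
  ∑ x ∈ s, Finsupp.single (s.erase x) (sgn x s)

/-- The boundary operator on the simplicial chains with integer coefficients (augmented: the
boundary of a vertex is the empty simplex). -/
noncomputable def bd {X : Type} [LinearOrder X] : (Finset X →₀ ℤ) →ₗ[ℤ] (Finset X →₀ ℤ) :=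
  Finsupp.linearCombination ℤ bdS

/-- `c` is a simplicial `i`-chain of the simplicial complex `K`: a combination of simplices of `K`
with `i + 1` vertices. -/
def IsChain {X : Type} (K : Set (Finset X)) (i : ℕ) (c : Finset X →₀ ℤ) : Prop :=
  ∀ s ∈ c.support, s ∈ K ∧ s.card = i + 1

/-- The `i`-th reduced simplicial homology group of `K` with integer coefficients is not zero:
there is an `i`-cycle which is not the boundary of an `(i + 1)`-chain. -/
def HomologyNonzero {X : Type} [LinearOrder X] (K : Set (Finset X)) (i : ℕ) : Prop :=
  ∃ c : Finset X →₀ ℤ, IsChain K i c ∧ bd c = 0 ∧ ∀ b, IsChain K (i + 1) b → bd b ≠ c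

/-- The points of `ℤ ^ n` (with the lexicographic linear order, which orients the simplices). -/
abbrev Pt (n : ℕ) : Type := Lex (Fin n → ℤ)

/-- The `ℓ^1` distance of `ℤ ^ n`. -/
def dist1 {n : ℕ} (x y : Pt n) : ℤ := ∑ k, |ofLex x k - ofLex y k|

/-- The cube `{0, 1} ^ n` in `ℤ ^ n`. -/
def cube (n : ℕ) : Set (Pt n) := {x | ∀ k, ofLex x k = 0 ∨ ofLex x k = 1}

/-- The Vietoris–Rips complex of the subspace `S` of `ℤ ^ n` with the parameter `r`: the finite
subsets of `S` of diameter at most `r`. -/
def vietorisRips {n : ℕ} (S : Set (Pt n)) (r : ℝ) : Set (Finset (Pt n)) :=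
  {s | (∀ x ∈ s, x ∈ S) ∧ ∀ x ∈ s, ∀ y ∈ s, (dist1 x y : ℝ) ≤ r}

end Pool.Agent.NH44.VR
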