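import Pool.Agent.NH44.VR.Data

/-!
# Distances of coded points
-/

set_option autoImplicit false

namespace Pool.Agent.NH44.VR

theorem dist1_self {n : ℕ} (x : Pt n) : dist1 x x = 0 := by
  unfold dist1
  simp

theorem dist1_comm {n : ℕ} (x y : Pt n) : dist1 x y = dist1 y x := by
  unfold dist1
  exact Finset.sum_congr rfl fun k _ => abs_sub_comm _ _

theorem dist1_nonneg {n : ℕ} (x y : Pt n) : 0 ≤ dist1 x y :=
  Finset.sum_nonneg fun _ _ => abs_nonneg _

theorem dist1_eq_zero {n : ℕ} {x y : Pt n} (h : dist1 x y = 0) : x = y := by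
  unfold dist1 at h
  rw [Finset.sum_eq_zero_iff_of_nonneg (fun k _ => abs_nonneg _)] at h
  apply ofLex.injective
  funext k
  have := h k (Finset.mem_univ k)
  rw [abs_eq_zero, sub_eq_zero] at this
  exact this

theorem abs_bitZ (a b k : ℕ) : |bitZ a k - bitZ b k| = bitZ (a ^^^ b) k := by
  unfold bitZ
  rw [Nat.testBit_xor]
  cases a.testBit k <;> cases b.testBit k <;> simp

theorem bitZ_mem (a k : ℕ) : bitZ a k = 0 ∨ bitZ a k = 1 := by
  unfold bitZ
  cases a.testBit k <;> simp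

theorem sum9 (x : ℕ) (hx : x < 512) : (∑ k : Fin 9, bitZ x k) = (pc x : ℤ) := by
  rw [← check_pc x hx]
  simp only [Fin.sum_univ_succ, Fin.sum_univ_zero, add_zero]
  rfl

theorem sum10 (x : ℕ) (hx : x < 1024) : (∑ k : Fin 10, bitZ x k) = (pcc x : ℤ) := by
  rw [← check_pcc x hx]
  simp only [Fin.sum_univ_succ, Fin.sum_univ_zero, add_zero]
  rfl

theorem dist1_cons (x y : Pt 10) :
    dist1 x y = |ofLex x 0 - ofLex y 0| + ∑ k : Fin 9, |ofLex x k.succ - ofLex y k.succ| := by
  unfold dist1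
  rw [Fin.sum_univ_succ]

theorem pt_zero (t : ℤ) (c : ℕ) : ofLex (pt t c) 0 = t := rfl

theorem pt_succ (t : ℤ) (c : ℕ) (k : Fin 9) : ofLex (pt t c) k.succ = bitZ c k := rfl

theorem dist1_pt (s t : ℕ × ℕ) (hs : s.2 < 512) (ht : t.2 < 512) :
    dist1 (pt s.1 s.2) (pt t.1 t.2) = (D s t : ℤ) := by
  rw [dist1_cons, pt_zero, pt_zero]
  simp only [pt_succ, abs_bitZ]
  rw [sum9 _ (Nat.xor_lt_two_pow (n := 9) hs ht)]
  unfold D
  push_cast
  have : |(s.1 : ℤ) - t.1| = ((s.1 - t.1 : ℕ) : ℤ) + ((t.1 - s.1 : ℕ) : ℤ) := by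
    rcases le_total s.1 t.1 with h | h
    · rw [Nat.sub_eq_zero_of_le h, Nat.cast_sub h, abs_of_nonpos (by
        have : (s.1 : ℤ) ≤ t.1 := by exact_mod_cast h
        linarith)]
      push_cast
      ring
    · rw [Nat.sub_eq_zero_of_le h, Nat.cast_sub h, abs_of_nonneg (by
        have : (t.1 : ℤ) ≤ s.1 := by exact_mod_cast h
        linarith)]
      push_cast
      ring
  rw [this]

theorem dist1_wd (a b : ℕ) (ha : a < 1024) (hb : b < 1024) :
    dist1 (wd 10 a) (wd 10 b) = (pcc (a ^^^ b) : ℤ) := by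
  have h : dist1 (wd 10 a) (wd 10 b) = ∑ k : Fin 10, bitZ (a ^^^ b) k := by
    unfold dist1
    exact Finset.sum_congr rfl fun k _ => abs_bitZ a b k
  rw [h, sum10 _ (Nat.xor_lt_two_pow (n := 10) ha hb)]

/-- Projection of a general point to the box `[0, 2] × [0, 1] ^ 9`. -/
theorem exists_proj (z : Pt 10) : ∃ j < 3, ∃ b < 512,
    ∀ s : ℕ × ℕ, (s.1 = 0 ∨ s.1 = 2) →
      dist1 z (pt s.1 s.2) = dist1 z (pt (j : ℕ) b) + dist1 (pt (j : ℕ) b) (pt s.1 s.2) := by
  obtain ⟨j, hj3, hj⟩ : ∃ j : ℕ, j < 3 ∧ ∀ t : ℕ, (t = 0 ∨ t = 2) →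
      |ofLex z 0 - (t : ℤ)| = |ofLex z 0 - (j : ℤ)| + |(j : ℤ) - (t : ℤ)| := by
    rcases le_or_gt (ofLex z 0) 0 with h | h
    · refine ⟨0, by norm_num, ?_⟩
      rintro t (rfl | rfl)
      · simp
      · push_cast
        rw [abs_of_nonpos (by linarith), abs_of_nonpos (by linarith), abs_of_nonpos (by norm_num)]
        ring
    · rcases le_or_gt 2 (ofLex z 0) with h2 | h2
      · refine ⟨2, by norm_num, ?_⟩
        rintro t (rfl | rfl)
        · push_cast
          rw [abs_of_nonneg (by linarith), abs_of_nonneg (by linarith), abs_of_nonneg (by norm_num)]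
          ring
        · simp
      · refine ⟨1, by norm_num, ?_⟩
        have h3 : ofLex z 0 = 1 := by omega
        intro t _
        rw [h3]
        simp
  refine ⟨j, hj3, Nat.ofBits (fun k : Fin 9 => decide (1 ≤ ofLex z k.succ)),
    Nat.ofBits_lt_two_pow _, ?_⟩
  intro s hs
  rw [dist1_cons, dist1_cons z, dist1_cons (pt _ _), pt_zero, pt_zero, hj s.1 hs]
  have h : ∀ k : Fin 9, |ofLex z k.succ - ofLex (pt s.1 s.2) k.succ| =
      |ofLex z k.succ - ofLex (pt (j : ℕ)
        (Nat.ofBits (fun k : Fin 9 => decide (1 ≤ ofLex z k.succ)))) k.succ| +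
      |ofLex (pt (j : ℕ) (Nat.ofBits (fun k : Fin 9 => decide (1 ≤ ofLex z k.succ)))) k.succ -
        ofLex (pt s.1 s.2) k.succ| := by
    intro k
    rw [pt_succ, pt_succ]
    have e : bitZ (Nat.ofBits (fun k : Fin 9 => decide (1 ≤ ofLex z k.succ))) k =
        if 1 ≤ ofLex z k.succ then 1 else 0 := by
      unfold bitZ
      rw [Nat.testBit_ofBits_lt _ _ k.2]
      simp only [Fin.eta, decide_eq_true_eq]
    rw [e]
    rcases bitZ_mem s.2 k with h0 | h0 <;> rw [h0]
    · by_cases h1 : 1 ≤ ofLex z k.succ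
      · rw [if_pos h1, abs_of_nonneg (by linarith), abs_of_nonneg (by linarith),
          abs_of_nonneg (by norm_num)]
        ring
      · rw [if_neg h1]
        simp
    · by_cases h1 : 1 ≤ ofLex z k.succ
      · rw [if_pos h1]
        simp
      · rw [if_neg h1]
        have h2 : ofLex z k.succ ≤ 0 := by omega
        rw [abs_of_nonpos (by linarith), abs_of_nonpos (by linarith),
          abs_of_nonpos (by norm_num)]
        ring
  rw [Finset.sum_congr rfl fun k _ => h k, Finset.sum_add_distrib]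
  ring

/-- Every point of the cube has a code. -/
theorem exists_code {x : Pt 10} (hx : x ∈ cube 10) : ∃ c < 1024, x = wd 10 c := by
  refine ⟨Nat.ofBits (fun k : Fin 10 => decide (ofLex x k = 1)), Nat.ofBits_lt_two_pow _, ?_⟩
  apply ofLex.injective
  funext k
  change ofLex x k = bitZ _ k
  unfold bitZ
  rw [Nat.testBit_ofBits_lt _ _ k.2]
  rcases hx k with h | h
  · rw [h]
    simp
  · rw [h]
    simp

theorem wd_mem (n c : ℕ) : wd n c ∈ cube n := fun k => bitZ_mem c k

/-- For three points of the cube `{0, 1} ^ n` the sum of the distances is at most `2 n`. -/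
theorem dist1_triple {n : ℕ} {u x y : Pt n} (hu : u ∈ cube n) (hx : x ∈ cube n)
    (hy : y ∈ cube n) : dist1 u x + dist1 u y + dist1 x y ≤ 2 * n := by
  unfold dist1
  rw [← Finset.sum_add_distrib, ← Finset.sum_add_distrib]
  calc _ ≤ ∑ k : Fin n, (2 : ℤ) := by
        refine Finset.sum_le_sum fun k _ => ?_
        rcases hu k with h1 | h1 <;> rcases hx k with h2 | h2 <;> rcases hy k with h3 | h3 <;>
          rw [h1, h2, h3] <;> norm_num
    _ = 2 * n := by
        rw [Finset.sum_const, Finset.card_univ, Fintype.card_fin, nsmul_eq_mul]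
        ring

end Pool.Agent.NH44.VR
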