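import Pool.Agent.NH44.VR.Chain

/-!
# Vanishing of the reduced homology of a flag complex with a large strong packing
-/

set_option autoImplicit false

namespace Pool.Agent.NH44.VR

open Finsupp

variable {X : Type} [LinearOrder X]

/-- The simplices with `k` vertices of the flag complex of the relation `R` on the vertex set `V`. -/
def Simp (R : X → X → Prop) (V : Finset X) (k : ℕ) : Set (Finset X) :=
  {s | s ⊆ V ∧ s.card = k ∧ ∀ x ∈ s, ∀ y ∈ s, R x y}

theorem bd_bd_of {u : X} {a b : Finset X →₀ ℤ} (ha : bd a = 0) (hb : bd b = a) :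
    bd (bd (cone u b)) = 0 := by
  have h1 : bd (cone u b) = b - cone u a := by
    have := bd_cone u b
    rw [hb] at this
    exact eq_sub_of_add_eq this
  have h2 : bd (cone u a) = a := by
    have := bd_cone u a
    rw [ha, map_zero, add_zero] at this
    exact this
  rw [h1, map_sub, h2, hb, sub_self]

theorem cone_supp {R : X → X → Prop} {V : Finset X} {k : ℕ} {v : X} (hv : v ∈ V)
    (hr : ∀ x, R x x) {P : Set (Finset X)} (hP : P ⊆ Simp R V k)
    (hc : ∀ s ∈ P, ∀ x ∈ s, R v x ∧ R x v) {c : Finset X →₀ ℤ} (h : c ∈ supported ℤ ℤ P) :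
    cone v c ∈ supported ℤ ℤ (Simp R V (k + 1)) := by
  refine map_supp (fun s hs => ?_) h
  unfold coneS
  by_cases hvs : v ∈ s
  · rw [if_pos hvs]
    exact Submodule.zero_mem _
  · rw [if_neg hvs]
    have h1 := hP hs
    refine single_supp (show insert v s ∈ Simp R V (k + 1) from ?_) _
    refine ⟨Finset.insert_subset hv h1.1, ?_, ?_⟩
    · rw [Finset.card_insert_of_notMem hvs, h1.2.1]
    · intro x hx y hy
      rcases Finset.mem_insert.1 hx with h2 | h2
      · rcases Finset.mem_insert.1 hy with h3 | h3
        · rw [h2, h3]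
          exact hr _
        · rw [h2]
          exact (hc s hs y h3).1
      · rcases Finset.mem_insert.1 hy with h3 | h3
        · rw [h3]
          exact (hc s hs x h2).2
        · exact h1.2.2 x h2 y h3

theorem vanish {R : X → X → Prop} (hr : ∀ x, R x x) (hs : ∀ x y, R x y → R y x) :
    ∀ (n : ℕ) (V : Finset X), V.card = n → ∀ (I : Finset X) (k : ℕ), I ⊆ V →
      (∀ x ∈ I, ∀ y ∈ I, R x y) →
      (∀ u ∈ V, ∀ x ∈ I, ∀ y ∈ I, ¬ R u x → ¬ R u y → x = y) → k + 1 ≤ I.card →
      ∀ c ∈ supported ℤ ℤ (Simp R V k), bd c = 0 →
        ∃ b ∈ supported ℤ ℤ (Simp R V (k + 1)), bd b = c := by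
  classical
  intro n
  induction n using Nat.strong_induction_on with
  | _ n ih =>
    intro V hV I k hI hII hpack hk c hc hbc
    have hne : I.Nonempty := by
      rw [← Finset.card_pos]
      omega
    obtain ⟨v, hvI⟩ := hne
    have hvV : v ∈ V := hI hvI
    by_cases hcone : ∀ s ∈ Simp R V k, ∀ x ∈ s, R v x
    · refine ⟨cone v c, cone_supp hvV hr (le_refl _) (fun s hs' x hx => ⟨hcone s hs' x hx,
        hs _ _ (hcone s hs' x hx)⟩) hc, ?_⟩
      have := bd_cone v c
      rw [hbc, map_zero, add_zero] at this
      exact this
    · push Not at hcone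
      obtain ⟨s0, hs0, u, hus0, hvu⟩ := hcone
      have huV : u ∈ V := hs0.1 hus0
      have huI : u ∉ I := fun h => hvu (hII v hvI u h)
      obtain ⟨k', rfl⟩ : ∃ k', k = k' + 1 := by
        have : 0 < s0.card := Finset.card_pos.2 ⟨u, hus0⟩
        have h2 := hs0.2.1
        exact ⟨k - 1, by omega⟩
      set V1 := V.erase u with hV1
      set V2 := V1.filter (fun w => R u w) with hV2
      have hc1 : V1.card < V.card := Finset.card_erase_lt_of_mem huV
      have hc2 : V2.card < V.card := lt_of_le_of_lt (Finset.card_filter_le _ _) hc1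
      have hV1V : V1 ⊆ V := Finset.erase_subset _ _
      have hV2V : V2 ⊆ V := (Finset.filter_subset _ _).trans hV1V
      -- the link part
      have ha : lk u c ∈ supported ℤ ℤ (Simp R V2 k') := by
        refine map_supp (fun s hs' => ?_) hc
        unfold lkS
        by_cases hus : u ∈ s
        · rw [if_pos hus]
          refine single_supp (show s.erase u ∈ Simp R V2 k' from ?_) _
          refine ⟨?_, ?_, ?_⟩
          · intro w hw
            have hws := Finset.mem_of_mem_erase hw
            exact Finset.mem_filter.2 ⟨Finset.mem_erase.2 ⟨Finset.ne_of_mem_erase hw, hs'.1 hws⟩,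
              hs'.2.2 u hus w hws⟩
          · rw [Finset.card_erase_of_mem hus, hs'.2.1]
            rfl
          · intro x hx y hy
            exact hs'.2.2 x (Finset.mem_of_mem_erase hx) y (Finset.mem_of_mem_erase hy)
        · rw [if_neg hus]
          exact Submodule.zero_mem _
      have hba : bd (lk u c) = 0 := by
        have := lk_bd u c
        rw [hbc, map_zero, zero_add] at this
        exact this
      obtain ⟨b', hb', hbb'⟩ := ih V2.card (by omega) V2 rfl (I.erase v) k'
        (fun x hx => by
          have hxI := Finset.mem_of_mem_erase hx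
          have hxv := Finset.ne_of_mem_erase hx
          refine Finset.mem_filter.2 ⟨Finset.mem_erase.2 ⟨?_, hI hxI⟩, ?_⟩
          · rintro rfl
            exact huI hxI
          · by_contra hcon
            exact hxv (hpack u huV x hxI v hvI hcon (fun h => hvu (hs _ _ h))))
        (fun x hx y hy => hII x (Finset.mem_of_mem_erase hx) y (Finset.mem_of_mem_erase hy))
        (fun w hw x hx y hy => hpack w (hV2V hw) x (Finset.mem_of_mem_erase hx) y
          (Finset.mem_of_mem_erase hy))
        (by rw [Finset.card_erase_of_mem hvI]; omega) (lk u c) ha hba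
      -- the rest
      have hcone' : cone u b' ∈ supported ℤ ℤ (Simp R V (k' + 1 + 1)) := by
        refine cone_supp huV hr (P := Simp R V2 (k' + 1)) ?_ ?_ hb'
        · intro s hs'
          exact ⟨hs'.1.trans hV2V, hs'.2⟩
        · intro s hs' x hx
          have := (Finset.mem_filter.1 (hs'.1 hx)).2
          exact ⟨this, hs _ _ this⟩
      have hc1supp : res u c + b' ∈ supported ℤ ℤ (Simp R V1 (k' + 1)) := by
        refine Submodule.add_mem _ ?_ ?_
        · refine map_supp (fun s hs' => ?_) hc
          unfold resS
          by_cases hus : u ∈ s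
          · rw [if_pos hus]
            exact Submodule.zero_mem _
          · rw [if_neg hus]
            refine single_supp (show s ∈ Simp R V1 (k' + 1) from ?_) _
            refine ⟨fun w hw => Finset.mem_erase.2 ⟨?_, hs'.1 hw⟩, hs'.2⟩
            rintro rfl
            exact hus hw
        · refine supported_mono ?_ hb'
          intro s hs'
          exact ⟨hs'.1.trans (Finset.filter_subset _ _), hs'.2⟩
      have hkey : bd (cone u b') = b' - cone u (lk u c) := by
        have := bd_cone u b'
        rw [hbb'] at this
        exact eq_sub_of_add_eq this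
      have hres := res_add u c
      have heq : res u c + b' = c + bd (cone u b') := by
        rw [hkey]
        nth_rewrite 2 [← hres]
        abel
      have hbc1 : bd (res u c + b') = 0 := by
        rw [heq, map_add, hbc, bd_bd_of hba hbb', add_zero]
      obtain ⟨b2, hb2, hbb2⟩ := ih V1.card (by omega) V1 rfl I (k' + 1)
        (fun x hx => Finset.mem_erase.2 ⟨fun h => huI (h ▸ hx), hI hx⟩) hII
        (fun w hw => hpack w (hV1V hw)) hk _ hc1supp hbc1
      refine ⟨b2 - cone u b', Submodule.sub_mem _ (supported_mono ?_ hb2) hcone', ?_⟩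
      · intro s hs'
        exact ⟨hs'.1.trans hV1V, hs'.2⟩
      · rw [map_sub, hbb2, heq]
        abel

end Pool.Agent.NH44.VR
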