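import Pool.Agent.NH44.VR.Geo
import Pool.Agent.NH44.VR.Cross
import Pool.Agent.NH44.VR.Vanish

/-!
# The two homology groups
-/

set_option autoImplicit false

namespace Pool.Agent.NH44.VR

open Finsupp

/-- Compatibility: distance at most 8. -/
def R (x y : Pt 10) : Prop := (dist1 x y : ℝ) ≤ 8

theorem R_iff (x y : Pt 10) : R x y ↔ dist1 x y ≤ 8 := by
  unfold R
  exact_mod_cast Iff.rfl

theorem R_refl (x : Pt 10) : R x x := by
  rw [R_iff, dist1_self]
  norm_num

theorem R_symm (x y : Pt 10) (h : R x y) : R y x := by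
  rw [R_iff] at *
  rwa [dist1_comm]

/-- A coded point. -/
def cp (s : ℕ × ℕ) : Pt 10 := pt (s.1 : ℤ) s.2

/-- The pairs of the cross-polytope. -/
def pairs : List (Pt 10 × Pt 10) := sigmaL.map fun s => (cp s, cp (opp s))

theorem opp_lt {s : ℕ × ℕ} (h : s.2 < 512) : (opp s).2 < 512 :=
  Nat.xor_lt_two_pow (n := 9) (by norm_num) h

theorem pairwise_and {α : Type} {P : α → Prop} {Q : α → α → Prop} :
    ∀ l : List α, (∀ a ∈ l, P a) → l.Pairwise Q → l.Pairwise (fun a b => P a ∧ P b ∧ Q a b)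
  | [], _, _ => List.Pairwise.nil
  | a :: l, hP, hQ => by
    have h := List.pairwise_cons.1 hQ
    refine List.pairwise_cons.2 ⟨fun b hb => ⟨hP a List.mem_cons_self,
      hP b (List.mem_cons_of_mem _ hb), h.1 b hb⟩, ?_⟩
    exact pairwise_and l (fun b hb => hP b (List.mem_cons_of_mem _ hb)) h.2

theorem ok_of {s t : ℕ × ℕ} (hs : s.2 < 512) (ht : t.2 < 512) (h1 : 1 ≤ D s t)
    (h8 : D s t ≤ 8) : R (cp s) (cp t) ∧ cp s ≠ cp t := by
  have h := dist1_pt s t hs ht
  refine ⟨?_, ?_⟩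
  · rw [R_iff]
    unfold cp
    rw [h]
    exact_mod_cast h8
  · intro hcon
    unfold cp at hcon
    rw [hcon, dist1_self] at h
    have : D s t = 0 := by exact_mod_cast h.symm
    omega

theorem joined_of {s t : ℕ × ℕ} (hs : s.2 < 512) (ht : t.2 < 512) (h : okPair s t = true) :
    Joined R (cp s, cp (opp s)) (cp t, cp (opp t)) := by
  unfold okPair at h
  simp only [Bool.and_eq_true, Nat.ble_eq] at h
  obtain ⟨⟨⟨⟨⟨⟨⟨a1, a2⟩, b1⟩, b2⟩, c1⟩, c2⟩, d1⟩, d2⟩ := h
  have A := ok_of hs ht a1 a2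
  have B := ok_of hs (opp_lt ht) b1 b2
  have C := ok_of (opp_lt hs) ht c1 c2
  have E := ok_of (opp_lt hs) (opp_lt ht) d1 d2
  exact ⟨⟨A.1, B.1, C.1, E.1⟩, A.2, B.2, C.2, E.2⟩

theorem pairs_joined : pairs.Pairwise (Joined R) := by
  unfold pairs
  rw [List.pairwise_map]
  refine (pairwise_and sigmaL (P := fun s => s.2 < 512) (fun s hs => (check_codes s hs).2)
    check_pairs).imp ?_
  rintro s t ⟨h1, h2, h3⟩
  exact joined_of h1 h2 h3

theorem bitZ_flip (c : ℕ) : bitZ (511 ^^^ c) 0 ≠ bitZ c 0 := by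
  unfold bitZ
  rw [Nat.testBit_xor]
  have : (511 : ℕ).testBit 0 = true := by decide
  rw [this]
  cases c.testBit 0 <;> simp

theorem pairs_ne : ∀ p ∈ pairs, p.1 ≠ p.2 := by
  intro p hp
  unfold pairs at hp
  obtain ⟨s, _, rfl⟩ := List.mem_map.1 hp
  intro hcon
  have h : ofLex (cp s) (Fin.succ (0 : Fin 9)) = ofLex (cp (opp s)) (Fin.succ (0 : Fin 9)) := by
    rw [show cp s = cp (opp s) from hcon]
  exact bitZ_flip s.2 h.symm

theorem facet_max (z : Pt 10) (h : ∀ a ∈ facet pairs, R z a) : z ∈ facet pairs := by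
  have hmem : ∀ s ∈ sigmaL, cp s ∈ facet pairs := by
    intro s hs
    exact mem_facet.2 ⟨(cp s, cp (opp s)), List.mem_map.2 ⟨s, hs, rfl⟩, rfl⟩
  obtain ⟨j, hj, b, hb, hz⟩ := exists_proj z
  have hd : ∀ s ∈ sigmaL, dist1 z (cp s) = dist1 z (cp (j, b)) + (D (j, b) s : ℤ) := by
    intro s hs
    have hc := check_codes s hs
    have h1 := hz s hc.1
    rw [dist1_pt (j, b) s hb hc.2] at h1
    exact h1
  have hle : ∀ s ∈ sigmaL, dist1 z (cp (j, b)) + (D (j, b) s : ℤ) ≤ 8 := by
    intro s hs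
    rw [← hd s hs]
    exact (R_iff _ _).1 (h _ (hmem s hs))
  have h0 := dist1_nonneg z (cp (j, b))
  have hm := check_max j hj b hb
  rw [Bool.or_eq_true, Bool.and_eq_true, List.any_eq_true, List.any_eq_true] at hm
  rcases hm with ⟨s, hs, h9⟩ | ⟨hc, s, hs, h8⟩
  · exfalso
    have h1 := hle s hs
    have h2 : 9 ≤ D (j, b) s := Nat.le_of_ble_eq_true h9
    have h3 : (9 : ℤ) ≤ (D (j, b) s : ℤ) := by exact_mod_cast h2
    linarith
  · have h1 := hle s hs
    have h2 : D (j, b) s = 8 := Nat.eq_of_beq_eq_true h8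
    rw [h2] at h1
    have h3 : dist1 z (cp (j, b)) = 0 := by
      push_cast at h1
      linarith
    rw [dist1_eq_zero h3]
    exact hmem _ (List.contains_iff_mem.1 hc)

theorem nonzero_of (L : List (Pt 10 × Pt 10)) (hJ : L.Pairwise (Joined R))
    (hne : ∀ p ∈ L, p.1 ≠ p.2) (hmax : ∀ z, (∀ a ∈ facet L, R z a) → z ∈ facet L)
    (k : ℕ) (hlen : L.length = k + 1) :
    HomologyNonzero (vietorisRips (Set.univ : Set (Pt 10)) 8) k := by
  have hsupp := zc_supp R_refl R_symm L hJ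
  refine ⟨zc L, ?_, bd_zc L, ?_⟩
  · intro s hs
    have h := hsupp hs
    refine ⟨⟨fun _ _ => Set.mem_univ _, fun x hx y hy => h.2.2 x hx y hy⟩, ?_⟩
    rw [h.1, hlen]
  · intro b hb hcon
    have h1 : b ∈ supported ℤ ℤ (vietorisRips (Set.univ : Set (Pt 10)) 8) :=
      fun s hs => (hb s hs).1
    have h2 := bd_apply_max (R := R) (t := facet L)
      (P := vietorisRips (Set.univ : Set (Pt 10)) 8)
      (fun s hs x hx y hy => hs.2 x hx y hy) hmax h1
    rw [hcon] at h2
    exact zc_facet L hJ hne h2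

theorem nonzero : HomologyNonzero (vietorisRips (Set.univ : Set (Pt 10)) 8) 63 := by
  refine nonzero_of pairs pairs_joined pairs_ne facet_max 63 ?_
  unfold pairs
  rw [List.length_map, check_length]

/-- The vertices of the cube. -/
noncomputable def vert : Finset (Pt 10) := (Finset.range 1024).image (wd 10)

/-- The packing. -/
noncomputable def packing : Finset (Pt 10) := packL.toFinset.image (wd 10)

theorem mem_vert (x : Pt 10) : x ∈ vert ↔ x ∈ cube 10 := by
  unfold vert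
  rw [Finset.mem_image]
  constructor
  · rintro ⟨c, _, rfl⟩
    exact wd_mem 10 c
  · intro hx
    obtain ⟨c, hc, rfl⟩ := exists_code hx
    exact ⟨c, Finset.mem_range.2 hc, rfl⟩

theorem pack_dist {a b : ℕ} (ha : a ∈ packL) (hb : b ∈ packL) (hne : a ≠ b) :
    3 ≤ dist1 (wd 10 a) (wd 10 b) ∧ dist1 (wd 10 a) (wd 10 b) ≤ 8 := by
  have hs : ∀ x y, (Nat.ble 3 (pcc (x ^^^ y)) && Nat.ble (pcc (x ^^^ y)) 8) = true →
      (Nat.ble 3 (pcc (y ^^^ x)) && Nat.ble (pcc (y ^^^ x)) 8) = true := by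
    intro x y h
    rwa [Nat.xor_comm y x]
  have : Std.Symm (fun a b : ℕ =>
    (Nat.ble 3 (pcc (a ^^^ b)) && Nat.ble (pcc (a ^^^ b)) 8) = true) := ⟨hs⟩
  have h := List.Pairwise.forall check_pack ha hb hne
  rw [Bool.and_eq_true, Nat.ble_eq, Nat.ble_eq] at h
  rw [dist1_wd a b (check_pack_lt a ha) (check_pack_lt b hb)]
  exact ⟨by exact_mod_cast h.1, by exact_mod_cast h.2⟩

theorem packing_card : packing.card = 66 := by
  unfold packing
  rw [Finset.card_image_of_injOn]
  · rw [List.toFinset_card_of_nodup, check_pack_length]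
    refine check_pack.imp ?_
    rintro a b h rfl
    rw [Nat.xor_self] at h
    revert h
    decide
  · intro a ha b hb hab
    by_contra hne
    have h := pack_dist (List.mem_toFinset.1 ha) (List.mem_toFinset.1 hb) hne
    rw [show wd 10 a = wd 10 b from hab, dist1_self] at h
    have := h.1
    norm_num at this

theorem zero (i : ℕ) (hi : i ≤ 64) : ¬ HomologyNonzero (vietorisRips (cube 10) 8) i := by
  rintro ⟨c, hc, hbc, hno⟩
  have hmem : ∀ x ∈ packing, ∃ a ∈ packL, x = wd 10 a := by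
    intro x hx
    obtain ⟨a, ha, rfl⟩ := Finset.mem_image.1 hx
    exact ⟨a, List.mem_toFinset.1 ha, rfl⟩
  obtain ⟨b, hb, hbb⟩ := vanish R_refl R_symm vert.card vert rfl packing (i + 1)
    (fun x hx => by
      obtain ⟨a, ha, rfl⟩ := hmem x hx
      exact (mem_vert _).2 (wd_mem 10 a))
    (fun x hx y hy => by
      obtain ⟨a, ha, rfl⟩ := hmem x hx
      obtain ⟨b, hb, rfl⟩ := hmem y hy
      by_cases hab : a = b
      · rw [hab]
        exact R_refl _
      · exact (R_iff _ _).2 (pack_dist ha hb hab).2)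
    (fun u hu x hx y hy hux huy => by
      obtain ⟨a, ha, rfl⟩ := hmem x hx
      obtain ⟨b, hb, rfl⟩ := hmem y hy
      rw [R_iff, not_le] at hux huy
      by_contra hne
      have hab : a ≠ b := fun h => hne (by rw [h])
      have h1 := (pack_dist ha hb hab).1
      have h2 := dist1_triple ((mem_vert _).1 hu) (wd_mem 10 a) (wd_mem 10 b)
      push_cast at h2
      linarith)
    (by rw [packing_card]; omega) c
    (fun s hs => by
      have h := hc s hs
      exact ⟨fun x hx => (mem_vert x).2 (h.1.1 x hx), h.2, fun x hx y hy => h.1.2 x hx y hy⟩)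
    hbc
  refine hno b (fun s hs => ?_) hbb
  have h := hb hs
  exact ⟨⟨fun x hx => (mem_vert x).1 (h.1 hx), fun x hx y hy => h.2.2 x hx y hy⟩, h.2.1⟩

end Pool.Agent.NH44.VR
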